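import Pool.Agent.Helper19.QR.Defs

/-!
# The coefficient of the radial part: monotonicity in the angle and its total
-/

open Real Set MeasureTheory intervalIntegral
open scoped ContDiff
open Pool.Agent.Helper19.QR

namespace Pool.Agent.Helper73.QR

theorem sin_step (n : ℕ) : S n - S (n + 2) = S n / (n + 2) := by
  unfold S
  rw [integral_sin_pow]
  simp only [sin_zero, sin_pi, cos_zero, cos_pi]
  have : (0 : ℝ) < (n : ℝ) + 2 := by positivity
  rw [zero_pow (by omega)]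
  field_simp
  ring

theorem sin_cos (n : ℕ) : ∫ t in (0 : ℝ)..π, sin t ^ n * cos t = 0 := by
  have h := integral_sin_pow_mul_cos_pow_odd (a := 0) (b := π) n 0
  simpa using h

theorem continuous_H (k : ℕ) (l ρ : ℝ) : Continuous (H k l ρ) := by
  unfold H
  fun_prop

theorem contDiff_H (k : ℕ) (l ρ : ℝ) : ContDiff ℝ ∞ (H k l ρ) := by
  unfold H
  fun_prop

theorem hasDerivAt_A1 (k : ℕ) (l ρ a t : ℝ) : HasDerivAt (A1 k l ρ a) (H k l ρ t) t := by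
  unfold A1
  exact ((continuous_H k l ρ).integral_hasStrictDerivAt 0 t).hasDerivAt.const_add a

theorem contDiff_A1 (k : ℕ) (l ρ a : ℝ) : ContDiff ℝ ∞ (A1 k l ρ a) := by
  rw [contDiff_infty_iff_deriv]
  have hd : deriv (A1 k l ρ a) = H k l ρ := by
    funext t
    exact (hasDerivAt_A1 k l ρ a t).deriv
  refine ⟨fun t => (hasDerivAt_A1 k l ρ a t).differentiableAt, ?_⟩
  rw [hd]
  exact contDiff_H k l ρ

theorem q_ge {k : ℕ} (hk : 4 ≤ k) (c : ℝ) :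
    |c| ≤ (√(k : ℝ))⁻¹ / 2 + √(k : ℝ) * c ^ 2 / 2 := by
  have hk' : (0 : ℝ) < k := by
    have : (4 : ℝ) ≤ k := by exact_mod_cast hk
    linarith
  have hs : 0 < √(k : ℝ) := Real.sqrt_pos.2 hk'
  have h1 : √(k : ℝ) * (√(k : ℝ))⁻¹ = 1 := mul_inv_cancel₀ hs.ne'
  have h2 : 0 < (√(k : ℝ))⁻¹ := inv_pos.2 hs
  have h3 : 0 ≤ (√(k : ℝ))⁻¹ * (1 - √(k : ℝ) * |c|) ^ 2 := by positivity
  have h4 : (√(k : ℝ))⁻¹ * (1 - √(k : ℝ) * |c|) ^ 2 =
      (√(k : ℝ))⁻¹ - 2 * |c| + √(k : ℝ) * c ^ 2 := by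
    have h5 : |c| ^ 2 = c ^ 2 := sq_abs c
    generalize √(k : ℝ) = s at *
    generalize s⁻¹ = i at *
    rw [← h5]
    linear_combination (-(2 * |c|) + s * |c| ^ 2) * h1
  rw [h4] at h3
  linarith

theorem cw_nonneg (k : ℕ) {l : ℝ} (hl : 0 < l) : 0 ≤ cw k l := by
  unfold cw
  positivity

theorem H_nonneg {k : ℕ} (hk : 4 ≤ k) {l ρ : ℝ} (hl : 0 < l) (hρ : 0 ≤ ρ) {t : ℝ}
    (ht : t ∈ Icc 0 π) : 0 ≤ H k l ρ t := by
  have hk' : (4 : ℝ) ≤ k := by exact_mod_cast hk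
  have hk1 : (0 : ℝ) < k - 1 := by linarith
  have hsin : 0 ≤ sin t := sin_nonneg_of_mem_Icc ht
  have hcos : cos t ≤ 1 := cos_le_one t
  have h1 := q_ge hk (cos t)
  have h2 : cos t ≤ |cos t| := le_abs_self _
  have h3 : 0 ≤ |cos t| := abs_nonneg _
  have h4 := cw_nonneg k hl
  unfold H
  have h5 : 0 ≤ (l / 2 + 1) * (k - 1) * ((√(k : ℝ))⁻¹ / 2 + √(k : ℝ) * cos t ^ 2 / 2)
      - l / 2 * (k - 1) * cos t + cw k l := by
    have h6 : (l / 2 + 1) * ((k : ℝ) - 1) * |cos t| ≤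
        (l / 2 + 1) * (k - 1) * ((√(k : ℝ))⁻¹ / 2 + √(k : ℝ) * cos t ^ 2 / 2) :=
      mul_le_mul_of_nonneg_left h1 (by positivity)
    have h7 : l / 2 * ((k : ℝ) - 1) * cos t ≤ l / 2 * (k - 1) * |cos t| :=
      mul_le_mul_of_nonneg_left h2 (by positivity)
    have h8 : 0 ≤ ((k : ℝ) - 1) * |cos t| := by positivity
    nlinarith
  have h9 : 0 ≤ (k : ℝ) * ρ * ((1 - cos t) * sin t ^ (k - 3)) := by
    have : 0 ≤ 1 - cos t := by linarith
    positivity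
  have h10 : 0 ≤ sin t ^ (k - 2) := pow_nonneg hsin _
  have := mul_nonneg h10 h5
  linarith

theorem le_A1 {k : ℕ} (hk : 4 ≤ k) {l ρ : ℝ} (hl : 0 < l) (hρ : 0 ≤ ρ) (a : ℝ) {t : ℝ}
    (ht : t ∈ Icc 0 π) : a ≤ A1 k l ρ a t := by
  unfold A1
  have h : 0 ≤ ∫ u in (0 : ℝ)..t, H k l ρ u :=
    integral_nonneg ht.1 fun u hu => H_nonneg hk hl hρ ⟨hu.1, hu.2.trans ht.2⟩
  linarith

theorem integral_H {k : ℕ} (hk : 4 ≤ k) (l ρ : ℝ) :
    ∫ u in (0 : ℝ)..π, H k l ρ u =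
      ((l / 2 + 1) * (k - 1) / √(k : ℝ) + cw k l) * S (k - 2) + k * ρ * S (k - 3) := by
  have hk' : (4 : ℝ) ≤ k := by exact_mod_cast hk
  have hk0 : (0 : ℝ) < k := by linarith
  have hs : 0 < √(k : ℝ) := Real.sqrt_pos.2 hk0
  have hs2 : √(k : ℝ) * √(k : ℝ) = k := Real.mul_self_sqrt hk0.le
  have e1 : (fun u => H k l ρ u) = fun u =>
      (((l / 2 + 1) * (k - 1) * ((√(k : ℝ))⁻¹ / 2 + √(k : ℝ) / 2) + cw k l) * sin u ^ (k - 2)
        - (l / 2 + 1) * (k - 1) * (√(k : ℝ) / 2) * sin u ^ k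
        - l / 2 * (k - 1) * (sin u ^ (k - 2) * cos u))
        + (k * ρ * sin u ^ (k - 3) - k * ρ * (sin u ^ (k - 3) * cos u)) := by
    funext u
    unfold H
    have h1 : cos u ^ 2 = 1 - sin u ^ 2 := by
      have := sin_sq_add_cos_sq u
      linarith
    have h2 : sin u ^ k = sin u ^ (k - 2) * sin u ^ 2 := by
      rw [← pow_add]
      congr 1
      omega
    rw [h1, h2]
    ring
  have hi : ∀ f : ℝ → ℝ, Continuous f → IntervalIntegrable f volume 0 π :=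
    fun f hf => hf.intervalIntegrable _ _
  have hstep := sin_step (k - 2)
  have e2 : k - 2 + 2 = k := by omega
  have e3 : ((k - 2 : ℕ) : ℝ) + 2 = k := by
    rw [Nat.cast_sub (by omega)]
    push_cast
    ring
  rw [e2, e3] at hstep
  have e4 : S k = S (k - 2) - S (k - 2) / k := by linarith
  rw [e1, intervalIntegral.integral_add (hi _ (by fun_prop)) (hi _ (by fun_prop)),
    intervalIntegral.integral_sub (hi _ (by fun_prop)) (hi _ (by fun_prop)),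
    intervalIntegral.integral_sub (hi _ (by fun_prop)) (hi _ (by fun_prop)),
    intervalIntegral.integral_sub (hi _ (by fun_prop)) (hi _ (by fun_prop))]
  simp only [intervalIntegral.integral_const_mul]
  rw [sin_cos, sin_cos]
  have e5 : ∫ t in (0 : ℝ)..π, sin t ^ k = S k := rfl
  have e6 : ∫ t in (0 : ℝ)..π, sin t ^ (k - 2) = S (k - 2) := rfl
  have e7 : ∫ t in (0 : ℝ)..π, sin t ^ (k - 3) = S (k - 3) := rfl
  rw [e5, e6, e7, e4]
  generalize S (k - 2) = P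
  generalize S (k - 3) = Q
  generalize cw k l = W
  have e8 : P / (k : ℝ) = P / (√(k : ℝ) * √(k : ℝ)) := by rw [hs2]
  rw [e8]
  field_simp
  ring

theorem A1_le {k : ℕ} (hk : 4 ≤ k) {l ρ : ℝ} (hl : 0 < l) (hρ : 0 ≤ ρ) (a : ℝ) {t : ℝ}
    (ht : t ∈ Icc 0 π) :
    A1 k l ρ a t ≤ a + ((l / 2 + 1) * (k - 1) / √(k : ℝ) + cw k l) * S (k - 2)
      + k * ρ * S (k - 3) := by
  have hi : ∀ x y, IntervalIntegrable (H k l ρ) volume x y :=
    fun x y => (continuous_H k l ρ).intervalIntegrable _ _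
  have h1 : ∫ u in (0 : ℝ)..π, H k l ρ u =
      (∫ u in (0 : ℝ)..t, H k l ρ u) + ∫ u in t..π, H k l ρ u :=
    (integral_add_adjacent_intervals (hi _ _) (hi _ _)).symm
  have h2 : 0 ≤ ∫ u in t..π, H k l ρ u :=
    integral_nonneg ht.2 fun u hu => H_nonneg hk hl hρ ⟨ht.1.trans hu.1, hu.2⟩
  have h3 := integral_H hk l ρ
  unfold A1
  linarith

end Pool.Agent.Helper73.QR
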